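import Pool.Agent.W845.PM.Base

set_option autoImplicit false
open scoped Classical
open Filter Topology MeasureTheory ProbabilityTheory
open scoped ENNReal NNReal BigOperators

namespace Pool.Agent.W803.PM

open Pool.Agent.W845.PM

noncomputable section

theorem edgeSet_ext {n : ℕ} (K : SimpleGraph (Fin n)) (N : Finset (Fin n)) :
    (ext K N).edgeSet = Sym2.map Fin.castSucc '' K.edgeSet ∪
      (fun x => s(Fin.last n, Fin.castSucc x)) '' (N : Set (Fin n)) := by
  ext e
  induction e using Sym2.ind with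
  | _ a b =>
  rw [SimpleGraph.mem_edgeSet]
  constructor
  · rintro (⟨x, y, hx, hy, h⟩ | ⟨ha, y, hy, hb⟩ | ⟨hb, x, hx, ha⟩)
    · left
      exact ⟨s(x, y), h, by rw [Sym2.map_mk, hx, hy]⟩
    · right
      exact ⟨y, hy, by rw [ha, hb]⟩
    · right
      exact ⟨x, hx, by rw [ha, hb]; exact Sym2.eq_swap⟩
  · rintro (⟨e, he, h⟩ | ⟨x, hx, h⟩)
    · induction e using Sym2.ind with
      | _ x y =>
      rw [Sym2.map_mk, Sym2.eq_iff] at h
      rcases h with ⟨h1, h2⟩ | ⟨h1, h2⟩
      · exact Or.inl ⟨x, y, h1.symm, h2.symm, he⟩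
      · exact Or.inl ⟨y, x, h2.symm, h1.symm, SimpleGraph.Adj.symm he⟩
    · beta_reduce at h
      rw [Sym2.eq_iff] at h
      rcases h with ⟨h1, h2⟩ | ⟨h1, h2⟩
      · exact Or.inr (Or.inl ⟨h1.symm, x, hx, h2.symm⟩)
      · exact Or.inr (Or.inr ⟨h1.symm, x, hx, h2.symm⟩)

theorem ncard_ext {n : ℕ} (K : SimpleGraph (Fin n)) (N : Finset (Fin n)) :
    (ext K N).edgeSet.ncard = K.edgeSet.ncard + N.card := by
  rw [edgeSet_ext, Set.ncard_union_eq, Set.ncard_image_of_injective, Set.ncard_image_of_injective,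
    Set.ncard_coe_finset]
  · intro x y h
    beta_reduce at h
    rw [Sym2.eq_iff] at h
    rcases h with ⟨_, h2⟩ | ⟨h1, h2⟩
    · exact Fin.castSucc_injective n h2
    · exact absurd h2 (Fin.castSucc_lt_last x).ne
  · exact Sym2.map.injective (Fin.castSucc_injective n)
  · rw [Set.disjoint_left]
    rintro e ⟨e1, he1, rfl⟩ ⟨x, hx, h⟩
    have : Fin.last n ∈ Sym2.map Fin.castSucc e1 := by
      rw [← h]
      exact Sym2.mem_mk_left _ _
    rw [Sym2.mem_map] at this
    obtain ⟨y, _, hy⟩ := this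
    exact absurd hy (Fin.castSucc_lt_last y).ne

theorem ncard_le {n : ℕ} (K : SimpleGraph (Fin n)) : K.edgeSet.ncard ≤ n.choose 2 := by
  have := SimpleGraph.card_edgeFinset_le_card_choose_two (G := K)
  rw [Fintype.card_fin] at this
  rwa [Set.ncard_eq_toFinset_card', ← SimpleGraph.edgeFinset]

theorem wt_ext {n : ℕ} (p : ℝ) (K : SimpleGraph (Fin n)) (N : Finset (Fin n)) :
    wt (n + 1) p (ext K N) = ws n p N * wt n p K := by
  have h1 : (n + 1).choose 2 = n.choose 2 + n := by
    rw [Nat.choose_succ_succ' n 1, Nat.choose_one_right, Nat.add_comm]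
  have h2 := ncard_le K
  have h3 : N.card ≤ n := by simpa using Finset.card_le_univ N
  unfold wt ws
  rw [ncard_ext, h1]
  have h4 : n.choose 2 + n - (K.edgeSet.ncard + N.card) =
      (n.choose 2 - K.edgeSet.ncard) + (n - N.card) := by omega
  rw [h4, pow_add, pow_add]
  ring

theorem ext_inj {n : ℕ} {K K' : SimpleGraph (Fin n)} {N N' : Finset (Fin n)}
    (h : ext K N = ext K' N') : N = N' ∧ K = K' := by
  constructor
  · ext x
    rw [← ext_adj_last K N x, h, ext_adj_last]
  · rw [← ext_comap K N, h, ext_comap]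

theorem ext_surj {n : ℕ} (G : SimpleGraph (Fin (n + 1))) :
    ext (G.comap Fin.castSucc) (Finset.univ.filter fun x => G.Adj (Fin.last n) (Fin.castSucc x))
      = G := by
  ext a b
  refine Fin.lastCases ?_ (fun x => ?_) a <;> refine Fin.lastCases ?_ (fun y => ?_) b
  · constructor
    · intro h
      exact absurd rfl h.ne
    · intro h
      exact absurd rfl h.ne
  · rw [ext_adj_last]
    simp
  · rw [SimpleGraph.adj_comm, ext_adj_last, SimpleGraph.adj_comm]
    simp
  · rw [ext_adj_castSucc]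
    rfl

theorem ext_thm : S_EXT := by
  intro n p F
  have h1 : ∑ N : Finset (Fin n), ws n p N * EG n p (fun K => F (ext K N)) =
      ∑ N : Finset (Fin n), ∑ K : SimpleGraph (Fin n), wt (n + 1) p (ext K N) * F (ext K N) := by
    refine Finset.sum_congr rfl fun N _ => ?_
    unfold EG
    rw [Finset.mul_sum]
    refine Finset.sum_congr rfl fun K _ => ?_
    rw [wt_ext]
    ring
  have h2 := Fintype.sum_prod_type
    (fun x : Finset (Fin n) × SimpleGraph (Fin n) => wt (n + 1) p (ext x.2 x.1) * F (ext x.2 x.1))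
  rw [h1, ← h2]
  unfold EG
  symm
  refine Finset.sum_bij (fun x _ => ext x.2 x.1) ?_ ?_ ?_ ?_
  · intro x _
    exact Finset.mem_univ _
  · rintro ⟨N, K⟩ _ ⟨N', K'⟩ _ h
    obtain ⟨h1, h2⟩ := ext_inj h
    exact Prod.ext h1 h2
  · intro G _
    exact ⟨(_, _), Finset.mem_univ _, ext_surj G⟩
  · intro x _
    rfl

theorem sum_ws (n : ℕ) (p : ℝ) : ∑ N : Finset (Fin n), ws n p N = 1 := by
  have := Fintype.sum_pow_mul_eq_add_pow (Fin n) p (1 - p)
  rw [Fintype.card_fin] at this
  unfold ws
  rw [this]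
  simp

theorem EG_one (n : ℕ) (p : ℝ) : EG n p (fun _ => 1) = 1 := by
  induction n with
  | zero =>
    unfold EG
    rw [Fintype.sum_unique]
    unfold wt
    have h : (default : SimpleGraph (Fin 0)).edgeSet.ncard = 0 := by
      have := ncard_le (default : SimpleGraph (Fin 0))
      exact Nat.le_zero.1 this
    rw [h]
    simp
  | succ n ih =>
    rw [ext_thm]
    rw [ih]
    simp only [mul_one]
    exact sum_ws n p

theorem one_thm : S_ONE := fun n p => ⟨EG_one n p, sum_ws n p⟩

end

end Pool.Agent.W803.PM
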