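import Pool.Agent.W845.PM.Base

set_option autoImplicit false
open scoped Classical
open Filter Topology MeasureTheory ProbabilityTheory
open scoped ENNReal NNReal BigOperators

namespace Pool.Agent.W803.PM

open Pool.Agent.W845.PM

noncomputable section

/-- the part of a subset of `Fin (n + 1)` below the last point -/
def low {n : ℕ} (N' : Finset (Fin (n + 1))) : Finset (Fin n) :=
  Finset.univ.filter fun w => Fin.castSucc w ∈ N'

theorem mem_low {n : ℕ} {N' : Finset (Fin (n + 1))} {w : Fin n} :
    w ∈ low N' ↔ Fin.castSucc w ∈ N' := by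
  simp [low]

theorem erase_last {n : ℕ} (N' : Finset (Fin (n + 1))) :
    N'.erase (Fin.last n) = (low N').map Fin.castSuccEmb := by
  ext w
  rw [Finset.mem_erase, Finset.mem_map]
  constructor
  · rintro ⟨h1, h2⟩
    refine ⟨w.castPred h1, ?_, ?_⟩
    · rw [mem_low, Fin.castSucc_castPred]
      exact h2
    · exact Fin.castSucc_castPred w h1
  · rintro ⟨v, hv, rfl⟩
    exact ⟨(Fin.castSucc_lt_last v).ne, mem_low.1 hv⟩

theorem low_map {n : ℕ} (N : Finset (Fin n)) : low (N.map Fin.castSuccEmb) = N := by
  ext w
  rw [mem_low, Finset.mem_map]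
  constructor
  · rintro ⟨v, hv, h⟩
    rwa [← Fin.castSucc_injective n h]
  · intro h
    exact ⟨w, h, rfl⟩

theorem low_insert {n : ℕ} (N : Finset (Fin n)) :
    low (insert (Fin.last n) (N.map Fin.castSuccEmb)) = N := by
  ext w
  rw [mem_low, Finset.mem_insert, ← mem_low, low_map]
  constructor
  · rintro (h | h)
    · exact absurd h (Fin.castSucc_lt_last w).ne
    · exact h
  · intro h
    exact Or.inr h

theorem last_notMem {n : ℕ} (N : Finset (Fin n)) : Fin.last n ∉ N.map Fin.castSuccEmb := by
  rw [Finset.mem_map]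
  rintro ⟨v, _, h⟩
  exact absurd h (Fin.castSucc_lt_last v).ne

theorem marginal (n : ℕ) (p : ℝ) (f : Finset (Fin n) → ℝ) :
    ∑ N' : Finset (Fin (n + 1)), ws (n + 1) p N' * f (low N') =
      ∑ N : Finset (Fin n), ws n p N * f N := by
  have h1 : ∑ x : Bool × Finset (Fin n),
      (if x.1 then p * (ws n p x.2 * f x.2) else (1 - p) * (ws n p x.2 * f x.2)) =
      ∑ N' : Finset (Fin (n + 1)), ws (n + 1) p N' * f (low N') := by
    refine Finset.sum_bij (fun x _ => if x.1 then insert (Fin.last n) (x.2.map Fin.castSuccEmb)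
      else x.2.map Fin.castSuccEmb) ?_ ?_ ?_ ?_
    · intro x _
      exact Finset.mem_univ _
    · rintro ⟨b, N⟩ _ ⟨b', N'⟩ _ h
      have h2 : N = N' := by
        have := congrArg low h
        cases b <;> cases b' <;> simpa [low_map, low_insert] using this
      have e1 := last_notMem N
      have e2 := last_notMem N'
      have h3 : b = b' := by
        cases b <;> cases b'
        · rfl
        · exfalso
          simp only [if_true, Bool.false_eq_true, if_false] at h
          rw [h] at e1
          exact e1 (Finset.mem_insert_self _ _)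
        · exfalso
          simp only [if_true, Bool.false_eq_true, if_false] at h
          rw [← h] at e2
          exact e2 (Finset.mem_insert_self _ _)
        · rfl
      rw [h2, h3]
    · intro N' _
      by_cases h : Fin.last n ∈ N'
      · refine ⟨(true, low N'), Finset.mem_univ _, ?_⟩
        simp only [if_true]
        rw [← erase_last, Finset.insert_erase h]
      · refine ⟨(false, low N'), Finset.mem_univ _, ?_⟩
        simp only [Bool.false_eq_true, if_false]
        rw [← erase_last, Finset.erase_eq_of_notMem h]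
    · rintro ⟨b, N⟩ _
      have hN : N.card ≤ n := by simpa using Finset.card_le_univ N
      cases b
      · simp only [Bool.false_eq_true, if_false]
        rw [low_map]
        unfold ws
        rw [Finset.card_map, Nat.succ_sub hN, pow_succ]
        ring
      · simp only [if_true]
        rw [low_insert]
        unfold ws
        rw [Finset.card_insert_of_notMem (last_notMem N), Finset.card_map, Nat.add_sub_add_right,
          pow_succ]
        ring
  rw [← h1, Fintype.sum_prod_type, Fintype.sum_bool]
  simp only [if_true, Bool.false_eq_true, if_false]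
  rw [← Finset.sum_add_distrib]
  refine Finset.sum_congr rfl fun N _ => ?_
  ring

theorem del_ext {n : ℕ} (K : SimpleGraph (Fin n)) (N : Finset (Fin n)) (v : Fin n) :
    del (ext K N) (Fin.castSucc v) = ext (del K v) (N.erase v) := by
  ext a b
  constructor
  · rintro ⟨h, ha, hb⟩
    rcases h with ⟨x, y, hx, hy, h⟩ | ⟨ha', y, hy, hb'⟩ | ⟨hb', x, hx, ha'⟩
    · exact Or.inl ⟨x, y, hx, hy, h, fun e => ha (by rw [hx, e]), fun e => hb (by rw [hy, e])⟩
    · exact Or.inr (Or.inl ⟨ha', y, Finset.mem_erase.2 ⟨fun e => hb (by rw [hb', e]), hy⟩, hb'⟩)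
    · exact Or.inr (Or.inr ⟨hb', x, Finset.mem_erase.2 ⟨fun e => ha (by rw [ha', e]), hx⟩, ha'⟩)
  · rintro (⟨x, y, hx, hy, h, h1, h2⟩ | ⟨ha', y, hy, hb'⟩ | ⟨hb', x, hx, ha'⟩)
    · exact ⟨Or.inl ⟨x, y, hx, hy, h⟩, fun e => h1 (Fin.castSucc_injective n (hx.symm.trans e)),
        fun e => h2 (Fin.castSucc_injective n (hy.symm.trans e))⟩
    · rw [Finset.mem_erase] at hy
      refine ⟨Or.inr (Or.inl ⟨ha', y, hy.2, hb'⟩), ?_, ?_⟩
      · rw [ha']
        exact (Fin.castSucc_lt_last v).ne'
      · exact fun e => hy.1 (Fin.castSucc_injective n (hb'.symm.trans e))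
    · rw [Finset.mem_erase] at hx
      refine ⟨Or.inr (Or.inr ⟨hb', x, hx.2, ha'⟩), ?_, ?_⟩
      · exact fun e => hx.1 (Fin.castSucc_injective n (ha'.symm.trans e))
      · rw [hb']
        exact (Fin.castSucc_lt_last v).ne'

theorem two : S_EXT → S_ONE → S_UEXT → S_TWO := by
  intro hext _ huext g u0 k n p φ
  constructor
  · rw [hext]
    have h1 : ∀ N : Finset (Fin n),
        EG n p (fun K => φ (U g u0 (k + 1) (ext K N) (Fin.last n))) =
          EG n p (fun K => φ (g k (∑ w ∈ N, U g u0 k K w))) :=
      fun N => EG_congr fun K => by rw [(huext g u0 k n K N).1]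
    unfold Psi
    rw [EG_sum]
    refine Finset.sum_congr rfl fun N _ => ?_
    rw [EG_mul_left, h1]
  · set A : Finset (Fin n) → SimpleGraph (Fin n) → ℝ :=
      fun N K => φ (g k (∑ w ∈ N, U g u0 k K w)) with hA
    have h2 : ∀ (N' : Finset (Fin (n + 1))) (Nb : Finset (Fin n)) (K : SimpleGraph (Fin n)),
        φ (U g u0 (k + 1) (del (ext (ext K Nb) N') (Fin.castSucc (Fin.last n)))
            (Fin.last (n + 1))) *
          φ (U g u0 (k + 1) (del (ext (ext K Nb) N') (Fin.last (n + 1)))
            (Fin.castSucc (Fin.last n))) = A (low N') K * A Nb K := by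
      intro N' Nb K
      rw [del_ext, del_ext_last, del_ext_last, (huext g u0 k (n + 1) _ _).1,
        (huext g u0 (k + 1) (n + 1) (ext K Nb) ∅).2, (huext g u0 k n K Nb).1, erase_last,
        Finset.sum_map]
      have h3 : ∑ x ∈ low N', U g u0 k (ext K ∅) (Fin.castSuccEmb x) =
          ∑ w ∈ low N', U g u0 k K w :=
        Finset.sum_congr rfl fun w _ => (huext g u0 k n K ∅).2 w
      rw [h3]
    rw [hext]
    have h4 : ∀ N' : Finset (Fin (n + 1)),
        EG (n + 1) p (fun G1 => φ (U g u0 (k + 1)
            (del (ext G1 N') (Fin.castSucc (Fin.last n))) (Fin.last (n + 1))) *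
          φ (U g u0 (k + 1) (del (ext G1 N') (Fin.last (n + 1))) (Fin.castSucc (Fin.last n)))) =
        ∑ Nb : Finset (Fin n), ws n p Nb * EG n p (fun K => A (low N') K * A Nb K) := by
      intro N'
      rw [hext]
      refine Finset.sum_congr rfl fun Nb _ => ?_
      rw [EG_congr (h2 N' Nb)]
    rw [Finset.sum_congr rfl fun N' _ => by rw [h4 N']]
    rw [marginal n p (fun N => ∑ Nb : Finset (Fin n), ws n p Nb *
      EG n p (fun K => A N K * A Nb K))]
    have h5 : ∀ K : SimpleGraph (Fin n),
        (Psi n p (fun s => φ (g k s)) (fun w => U g u0 k K w)) ^ 2 =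
        ∑ N : Finset (Fin n), ws n p N * ∑ Nb : Finset (Fin n), ws n p Nb * (A N K * A Nb K) := by
      intro K
      unfold Psi
      rw [sq, Finset.sum_mul]
      refine Finset.sum_congr rfl fun N _ => ?_
      rw [mul_assoc, Finset.mul_sum]
      congr 1
      refine Finset.sum_congr rfl fun Nb _ => ?_
      simp only [hA]
      ring
    rw [EG_congr h5, EG_sum]
    refine Finset.sum_congr rfl fun N _ => ?_
    rw [EG_mul_left, EG_sum]
    congr 1
    refine Finset.sum_congr rfl fun Nb _ => ?_
    rw [EG_mul_left]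

end

end Pool.Agent.W803.PM
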